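import Pool.Agent.MP_13e7a1_an.H82.Spec

/-!
The change of variables in the mollifier along a family of discs.
-/

open scoped ContDiff Topology NNReal Convolution
open Set Metric MeasureTheory Filter

noncomputable section

namespace Pool.Agent.MP_13e7a1_an.H33

open Pool.Agent.MP_13e7a1_an.H82

theorem contDiff_param_integral {P F : Type} [NormedAddCommGroup P] [NormedSpace ℝ P]
    [NormedAddCommGroup F] [NormedSpace ℝ F] {H : P × ℝ → F} (hH : ContDiff ℝ ∞ H) :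
    ContDiff ℝ ∞ (fun q => ∫ t in (0 : ℝ)..1, H (q, t)) := by
  let β : ContDiffBump (0 : ℝ) := ⟨1, 2, one_pos, one_lt_two⟩
  let f : ℝ → ℝ := (Ioc (0 : ℝ) 1).indicator (fun _ => 1)
  let g : P → ℝ → F := fun q t => β t • H (q, -t)
  have hf : LocallyIntegrable f volume :=
    (locallyIntegrable_const (1 : ℝ)).indicator measurableSet_Ioc
  have hg : ContDiff ℝ ∞ (fun z : P × ℝ => g z.1 z.2) :=
    (β.contDiff.comp contDiff_snd).smul (hH.comp (contDiff_fst.prodMk contDiff_snd.neg))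
  have h := contDiffOn_convolution_right_with_param_comp (μ := volume) (n := ⊤)
    (ContinuousLinearMap.lsmul ℝ ℝ : ℝ →L[ℝ] F →L[ℝ] F) (s := (univ : Set P))
    (v := fun _ : P => (0 : ℝ)) contDiffOn_const (f := f) (g := g) (k := closedBall 0 2)
    isOpen_univ (isCompact_closedBall _ _) ?_ hf hg.contDiffOn
  · rw [contDiffOn_univ] at h
    convert h using 2 with q
    rw [convolution_def, intervalIntegral.integral_of_le zero_le_one,
      ← integral_indicator measurableSet_Ioc]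
    refine integral_congr_ae (Eventually.of_forall fun t => ?_)
    by_cases ht : t ∈ Ioc (0 : ℝ) 1
    · have h1 : β (-t) = 1 := by
        apply β.one_of_mem_closedBall
        simp only [mem_closedBall, dist_zero_right, norm_neg, Real.norm_eq_abs, β]
        rw [abs_of_pos ht.1]; exact ht.2
      simp [f, g, ht, h1]
    · simp [f, g, ht]
  · intro q x _ hx
    have : β x = 0 := by
      apply β.zero_of_le_dist
      simp only [mem_closedBall, not_le] at hx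
      exact hx.le
    simp [g, this]

/-- The inclusion of the last variable. -/
def dz {W F : Type} [NormedAddCommGroup W] [NormedSpace ℝ W] [NormedAddCommGroup F]
    [NormedSpace ℝ F] (Φ : W × ℂ → F) (q : W × ℂ) : ℂ →L[ℝ] F :=
  (fderiv ℝ Φ q).comp (ContinuousLinearMap.inr ℝ W ℂ)

theorem contDiff_dz {W F : Type} [NormedAddCommGroup W] [NormedSpace ℝ W] [NormedAddCommGroup F]
    [NormedSpace ℝ F] {Φ : W × ℂ → F} (h : ContDiff ℝ ∞ Φ) : ContDiff ℝ ∞ (dz Φ) :=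
  (h.fderiv_right (m := ∞) le_rfl).clm_comp contDiff_const

theorem hasFDerivAt_dz {W F : Type} [NormedAddCommGroup W] [NormedSpace ℝ W]
    [NormedAddCommGroup F] [NormedSpace ℝ F] {Φ : W × ℂ → F} (h : ContDiff ℝ ∞ Φ) (w : W)
    (ζ : ℂ) : HasFDerivAt (fun z => Φ (w, z)) (dz Φ (w, ζ)) ζ :=
  ((h.differentiable (by simp)) (w, ζ)).hasFDerivAt.comp ζ (hasFDerivAt_prodMk_right w ζ)

theorem taylor1 {W F : Type} [NormedAddCommGroup W] [NormedSpace ℝ W]
    [NormedAddCommGroup F] [NormedSpace ℝ F] {Φ : W × ℂ → F} (h : ContDiff ℝ ∞ Φ) {K : Set W}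
    (hK : IsCompact K) : ∃ C : ℝ, 0 ≤ C ∧ (∀ w ∈ K, ‖dz Φ (w, 0)‖ ≤ C) ∧
      ∀ w ∈ K, ∀ ζ : ℂ, ‖ζ‖ ≤ 1 → ‖Φ (w, ζ) - Φ (w, 0)‖ ≤ C * ‖ζ‖ := by
  obtain ⟨C, hC⟩ := (hK.prod (isCompact_closedBall (0 : ℂ) 1)).exists_bound_of_continuousOn
    (contDiff_dz h).continuous.continuousOn
  refine ⟨max C 0, le_max_right _ _, fun w hw => ?_, fun w hw ζ hζ => ?_⟩
  · exact (hC (w, 0) ⟨hw, by simp⟩).trans (le_max_left _ _)
  · have := (convex_closedBall (0 : ℂ) 1).norm_image_sub_le_of_norm_hasFDerivWithin_le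
      (f := fun z => Φ (w, z)) (f' := fun z => dz Φ (w, z)) (C := max C 0) (x := 0) (y := ζ)
      (fun z _ => (hasFDerivAt_dz h w z).hasFDerivWithinAt)
      (fun z hz => (hC (w, z) ⟨hw, hz⟩).trans (le_max_left _ _)) (by simp) (by simpa using hζ)
    simpa using this

theorem taylor2 {W F : Type} [NormedAddCommGroup W] [NormedSpace ℝ W]
    [NormedAddCommGroup F] [NormedSpace ℝ F] {Φ : W × ℂ → F} (h : ContDiff ℝ ∞ Φ) {K : Set W}
    (hK : IsCompact K) : ∃ C : ℝ, 0 ≤ C ∧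
      ∀ w ∈ K, ∀ ζ : ℂ, ‖ζ‖ ≤ 1 → ‖Φ (w, ζ) - Φ (w, 0) - dz Φ (w, 0) ζ‖ ≤ C * ‖ζ‖ ^ 2 := by
  obtain ⟨C, hC0, -, hC⟩ := taylor1 (contDiff_dz h) hK
  refine ⟨C, hC0, fun w hw ζ hζ => ?_⟩
  have := (convex_closedBall (0 : ℂ) ‖ζ‖).norm_image_sub_le_of_norm_hasFDerivWithin_le'
    (f := fun z => Φ (w, z)) (f' := fun z => dz Φ (w, z)) (C := C * ‖ζ‖) (x := 0) (y := ζ)
    (φ := dz Φ (w, 0)) (fun z _ => (hasFDerivAt_dz h w z).hasFDerivWithinAt)
    (fun z hz => by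
      have hz' : ‖z‖ ≤ ‖ζ‖ := by simpa using hz
      exact (hC w hw z (hz'.trans hζ)).trans (by gcongr)) (by simp) (by simp)
  calc _ ≤ C * ‖ζ‖ * ‖ζ - 0‖ := by simpa using this
    _ = _ := by simp; ring

theorem contDiff_det : ContDiff ℝ ∞ (fun A : E →L[ℝ] E => A.det) := by
  have : (fun A : E →L[ℝ] E => A.det) = fun A : E →L[ℝ] E =>
      ∑ s : Equiv.Perm (Fin 4), ((Equiv.Perm.sign s : ℤ) : ℝ) *
        ∏ i, (A (EuclideanSpace.single i 1)).ofLp (s i) := by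
    ext A
    rw [ContinuousLinearMap.det, ← LinearMap.det_toMatrix (EuclideanSpace.basisFun (Fin 4) ℝ).toBasis,
      Matrix.det_apply']
    simp [LinearMap.toMatrix_apply]
  rw [this]
  refine ContDiff.sum fun s _ => contDiff_const.mul (contDiff_prod fun i _ => ?_)
  exact ((EuclideanSpace.proj (s i) : E →L[ℝ] ℝ).contDiff).comp
    (ContinuousLinearMap.apply ℝ E (EuclideanSpace.single i (1 : ℝ) : E)).contDiff


theorem cov {g : E → E} {g' : E → E →L[ℝ] E}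
    (hd : ∀ y ∈ closedBall (0 : E) 2, HasFDerivAt g (g' y) y)
    (hb : ∀ y ∈ closedBall (0 : E) 2, ‖g' y - ContinuousLinearMap.id ℝ E‖ ≤ 1 / 4) (h0 : g 0 = 0)
    {u : E → ℝ} (hu : ∀ y, 1 ≤ ‖y‖ → u y = 0) :
    ∫ y, u y = ∫ y in closedBall (0 : E) 2, |(g' y).det| * u (g y) := by
  have hA : ApproximatesLinearOn g (ContinuousLinearMap.id ℝ E) (closedBall 0 2) (1 / 4 : ℝ≥0) := by
    intro x hx y hy
    have := (convex_closedBall (0 : E) 2).norm_image_sub_le_of_norm_hasFDerivWithin_le'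
      (f := g) (f' := g') (C := 1 / 4) (x := y) (y := x) (φ := ContinuousLinearMap.id ℝ E)
      (fun z hz => (hd z hz).hasFDerivWithinAt) hb hy hx
    simpa using this
  have hinj : InjOn g (closedBall 0 2) := by
    intro x hx y hy hxy
    have := hA x hx y hy
    rw [hxy, sub_self, zero_sub, norm_neg] at this
    simp only [ContinuousLinearMap.id_apply, NNReal.coe_div, NNReal.coe_one,
      NNReal.coe_ofNat] at this
    have h1 : ‖x - y‖ = 0 := by linarith [norm_nonneg (x - y)]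
    exact sub_eq_zero.1 (norm_eq_zero.1 h1)
  have hsurj := hA.surjOn_closedBall_of_nonlinearRightInverse
    ⟨id, 1, fun y => by simp, fun y => by simp⟩ (ε := 2) (b := 0) zero_le_two subset_rfl
  have h1 := integral_image_eq_integral_abs_det_fderiv_smul volume measurableSet_closedBall
    (fun x hx => (hd x hx).hasFDerivWithinAt) hinj u
  rw [setIntegral_eq_integral_of_forall_compl_eq_zero] at h1
  · simpa using h1
  · intro y hy
    apply hu
    by_contra hlt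
    apply hy
    apply hsurj
    rw [h0, mem_closedBall, dist_zero_right]
    push Not at hlt
    norm_num
    linarith

/-- Derivative in the base point. -/
def dx (lam : E × E × ℂ → E) (q : (E × E) × ℂ) : E →L[ℝ] E :=
  (fderiv ℝ lam (q.1.1, q.1.2, q.2)).comp (ContinuousLinearMap.inl ℝ E (E × ℂ))

theorem contDiff_dx {lam : E × E × ℂ → E} (h : ContDiff ℝ ∞ lam) : ContDiff ℝ ∞ (dx lam) :=
  ((h.fderiv_right (m := ∞) le_rfl).comp
    (contDiff_fst.fst.prodMk (contDiff_fst.snd.prodMk contDiff_snd))).clm_comp contDiff_const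

theorem hasFDerivAt_dx {lam : E × E × ℂ → E} (h : ContDiff ℝ ∞ lam) (x Z : E) (ζ : ℂ) :
    HasFDerivAt (fun x => lam (x, Z, ζ)) (dx lam ((x, Z), ζ)) x :=
  ((h.differentiable (by simp)) (x, Z, ζ)).hasFDerivAt.comp x (hasFDerivAt_prodMk_left x (Z, ζ))

/-- Parameters: scale, base point, direction, integration variable. -/
abbrev W := ℝ × E × E × E

/-- The difference quotient, written as an integral. -/
def G (lam : E × E × ℂ → E) (q : W × ℂ) : E :=
  ∫ t in (0 : ℝ)..1, dx lam ((q.1.2.1 - (t * q.1.1) • q.1.2.2.2, q.1.2.2.1), q.2) q.1.2.2.2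

theorem contDiff_G {lam : E × E × ℂ → E} (h : ContDiff ℝ ∞ lam) : ContDiff ℝ ∞ (G lam) := by
  have hx := contDiff_dx h
  refine contDiff_param_integral (H := fun z : (W × ℂ) × ℝ =>
    dx lam ((z.1.1.2.1 - (z.2 * z.1.1.1) • z.1.1.2.2.2, z.1.1.2.2.1), z.1.2) z.1.1.2.2.2) ?_
  refine ContDiff.clm_apply (hx.comp ?_) ?_ <;> fun_prop

theorem smul_G {lam : E × E × ℂ → E} (h : ContDiff ℝ ∞ lam) (κ : ℝ) (x Z y : E) (ζ : ℂ) :
    κ • G lam ((κ, x, Z, y), ζ) = lam (x, Z, ζ) - lam (x - κ • y, Z, ζ) := by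
  have hc : Continuous fun t : ℝ => dx lam ((x - (t * κ) • y, Z), ζ) y :=
    ((contDiff_dx h).continuous.comp (by fun_prop)).clm_apply continuous_const
  have h1 : ∀ t ∈ uIcc (0 : ℝ) 1, HasDerivAt (fun t : ℝ => lam (x - (t * κ) • y, Z, ζ))
      (-(κ • dx lam ((x - (t * κ) • y, Z), ζ) y)) t := by
    intro t _
    have h2 : HasDerivAt (fun t : ℝ => x - (t * κ) • y) (-(κ • y)) t := by
      simpa using (((hasDerivAt_id t).mul_const κ).smul_const y).const_sub x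
    have := (hasFDerivAt_dx h (x - (t * κ) • y) Z ζ).comp_hasDerivAt t h2
    rw [map_neg, map_smul] at this
    exact this
  have h3 := intervalIntegral.integral_eq_sub_of_hasDerivAt h1
    ((hc.const_smul κ).neg.intervalIntegrable 0 1)
  rw [intervalIntegral.integral_neg, intervalIntegral.integral_smul] at h3
  simp only [one_mul, zero_mul, zero_smul, sub_zero] at h3
  simp only [G]
  rw [← neg_inj, h3]
  abel

/-- The Jacobian. -/
def Jd (lam : E × E × ℂ → E) (q : W × ℂ) : ℝ :=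
  (dx lam ((q.1.2.1 - q.1.1 • q.1.2.2.2, q.1.2.2.1), q.2)).det

theorem contDiff_Jd {lam : E × E × ℂ → E} (h : ContDiff ℝ ∞ lam) : ContDiff ℝ ∞ (Jd lam) :=
  contDiff_det.comp ((contDiff_dx h).comp (by fun_prop))

theorem dz_mul {W : Type} [NormedAddCommGroup W] [NormedSpace ℝ W] {S T : W × ℂ → ℝ}
    (hS : ContDiff ℝ ∞ S) (hT : ContDiff ℝ ∞ T) (w : W) (ζ : ℂ) :
    dz (fun q => S q * T q) (w, 0) ζ = S (w, 0) * dz T (w, 0) ζ + T (w, 0) * dz S (w, 0) ζ := by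
  have h1 := hasFDerivAt_dz (hS.mul hT) w 0
  have h2 := (hasFDerivAt_dz hS w 0).mul (hasFDerivAt_dz hT w 0)
  rw [h1.unique h2]
  simp

/-- The continuous cutoff. -/
def cut (y : E) : ℝ := max 0 (min 1 (4 - 2 * ‖y‖))

theorem continuous_cut : Continuous cut := by
  unfold cut; fun_prop

theorem cut_one {y : E} (h : ‖y‖ ≤ 3 / 2) : cut y = 1 := by
  rw [cut, min_eq_left (by linarith), max_eq_right zero_le_one]

theorem cut_zero {y : E} (h : 2 ≤ ‖y‖) : cut y = 0 := by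
  rw [cut, max_eq_left]
  exact (min_le_right _ _).trans (by linarith)

theorem lin_zero {L B : ℝ} (h : ∀ t : ℝ, 0 < t → t ≤ 1 → |t * L| ≤ B * t ^ 2) : L = 0 := by
  by_contra hL
  have hL' : 0 < |L| := abs_pos.2 hL
  have hB : |L| ≤ B := by simpa using h 1 one_pos le_rfl
  have hB0 : 0 < B := hL'.trans_le hB
  have := h (|L| / (2 * B)) (by positivity) (by rw [div_le_one (by positivity)]; linarith)
  rw [abs_mul, abs_of_pos (by positivity : 0 < |L| / (2 * B))] at this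
  have h2 : B * (|L| / (2 * B)) ^ 2 = |L| / (2 * B) * (|L| / 2) := by field_simp
  rw [h2] at this
  have := le_of_mul_le_mul_left this (by positivity)
  linarith

theorem ker : SKer := by
  intro c p R δ lam hF σ hσ hσ0 hσ1 δ₂ hδ₂ hδ
  have hl := hF.smooth
  set κ₀ : ℝ := (δ - δ₂) / 4 with hκ₀
  have hκ₀0 : 0 < κ₀ := by rw [hκ₀]; linarith
  let S : W × ℂ → ℝ := fun q => σ (G lam q)
  let T : W × ℂ → ℝ := fun q => σ (G lam q) * Jd lam q
  have hS : ContDiff ℝ ∞ S := hσ.comp (contDiff_G hl)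
  have hT : ContDiff ℝ ∞ T := hS.mul (contDiff_Jd hl)
  let K : Set W := Icc 0 κ₀ ×ˢ closedBall p δ ×ˢ closedBall 0 δ ×ˢ closedBall 0 2
  have hK : IsCompact K := isCompact_Icc.prod ((isCompact_closedBall _ _).prod
    ((isCompact_closedBall _ _).prod (isCompact_closedBall _ _)))
  have hK' : IsCompact (closedBall p δ ×ˢ closedBall (0 : E) δ) :=
    (isCompact_closedBall _ _).prod (isCompact_closedBall _ _)
  have hl' : ContDiff ℝ ∞ (fun q : (E × E) × ℂ => lam (q.1.1, q.1.2, q.2)) :=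
    hl.comp (by fun_prop)
  obtain ⟨C1, hC1, -, h1⟩ := taylor1 hl' hK'
  obtain ⟨C2, hC2, -, h2⟩ := taylor1 (contDiff_dx hl) hK'
  obtain ⟨C3, hC3, -, h3⟩ := taylor1 (contDiff_G hl) hK
  obtain ⟨C4, hC4, -, h4⟩ := taylor1 (contDiff_Jd hl) hK
  obtain ⟨C5, hC5, h5, -⟩ := taylor1 hS hK
  obtain ⟨C6, hC6, h6, -⟩ := taylor1 hT hK
  obtain ⟨C7, hC7, h7⟩ := taylor2 (hS.mul hT) hK
  set C : ℝ := C1 + C2 + C3 + C4 + C5 + C6 + C7 + 1 with hC
  have hC0 : 1 ≤ C := by rw [hC]; linarith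
  refine ⟨C, 1 / (4 * C), κ₀, by linarith, by positivity,
    by rw [div_le_one (by positivity)]; linarith, hκ₀0, ?_, ?_⟩
  · intro x hx Z hZ ζ hζ
    have := h1 (x, Z) ⟨ball_subset_closedBall hx, ball_subset_closedBall hZ⟩ ζ hζ.le
    simp only [hF.zero x hx Z hZ] at this
    refine this.trans ?_
    gcongr; rw [hC]; linarith
  intro κ hκ hκ1 x₀ hx₀ Z hZ
  have hx₀' : x₀ ∈ ball p δ := ball_subset_ball hδ.le hx₀
  have hmem : ∀ y : E, ‖y‖ ≤ 2 → x₀ - κ • y ∈ ball p δ := by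
    intro y hy
    rw [mem_ball, dist_eq_norm] at hx₀ ⊢
    have e : x₀ - κ • y - p = (x₀ - p) - κ • y := by abel
    have : ‖κ • y‖ ≤ κ * 2 := by
      rw [norm_smul, Real.norm_eq_abs, abs_of_pos hκ]; gcongr
    rw [e]
    refine (norm_sub_le _ _).trans_lt ?_
    rw [hκ₀] at hκ1
    linarith
  have hKm : ∀ y : E, ‖y‖ ≤ 2 → ((κ, x₀, Z, y) : W) ∈ K := fun y hy =>
    ⟨⟨hκ.le, hκ1.le⟩, ball_subset_closedBall hx₀', ball_subset_closedBall hZ, by simpa using hy⟩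
  have hdx0 : ∀ x ∈ ball p δ, dx lam ((x, Z), 0) = ContinuousLinearMap.id ℝ E := by
    intro x hx
    refine (hasFDerivAt_dx hl x Z 0).unique ((hasFDerivAt_id x).congr_of_eventuallyEq ?_)
    filter_upwards [isOpen_ball.mem_nhds hx] with x' hx'
    exact hF.zero x' hx' Z hZ
  have hG0 : ∀ y : E, ‖y‖ ≤ 2 → G lam ((κ, x₀, Z, y), 0) = y := by
    intro y hy
    have := smul_G hl κ x₀ Z y 0
    rw [hF.zero _ hx₀' Z hZ, hF.zero _ (hmem y hy) Z hZ, sub_sub_cancel] at this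
    exact smul_right_injective E hκ.ne' this
  have hJ0 : ∀ y : E, ‖y‖ ≤ 2 → Jd lam ((κ, x₀, Z, y), 0) = 1 := by
    intro y hy
    simp only [Jd]
    rw [hdx0 _ (hmem y hy)]
    simp [ContinuousLinearMap.det]
  have hout : ∀ y : E, y ∉ closedBall (0 : E) 2 → 2 ≤ ‖y‖ := fun y hy => by
    rw [mem_closedBall, dist_zero_right, not_le] at hy
    exact hy.le
  let Θ : ℂ × E → ℝ := fun z => cut z.2 * (S ((κ, x₀, Z, z.2), z.1) * T ((κ, x₀, Z, z.2), z.1))
  let k : E → ℂ →L[ℝ] ℝ := fun y => dz T ((κ, x₀, Z, y), 0) + dz S ((κ, x₀, Z, y), 0)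
  have hΘ : Continuous Θ :=
    (continuous_cut.comp continuous_snd).mul ((hS.mul hT).continuous.comp (by fun_prop))
  have hk : Continuous k :=
    ((contDiff_dz hT).continuous.comp (by fun_prop)).add
      ((contDiff_dz hS).continuous.comp (by fun_prop))
  have hsmall : ∀ ζ : ℂ, ‖ζ‖ < 1 / (4 * C) → ‖ζ‖ ≤ 1 ∧ ∀ D : ℝ, D ≤ C → D * ‖ζ‖ ≤ 1 / 4 := by
    intro ζ hζ
    rw [lt_div_iff₀ (by positivity)] at hζ
    refine ⟨by nlinarith [norm_nonneg ζ], fun D hD => by nlinarith [norm_nonneg ζ]⟩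
  have hΘ2 : ∀ ζ : ℂ, ‖ζ‖ < 1 / (4 * C) → ∀ y : E, ‖y‖ ≤ 2 →
      Θ (ζ, y) = S ((κ, x₀, Z, y), ζ) * T ((κ, x₀, Z, y), ζ) := by
    intro ζ hζ y hy
    obtain ⟨hζ1, hζ2⟩ := hsmall ζ hζ
    by_cases hy' : ‖y‖ ≤ 3 / 2
    · simp only [Θ, cut_one hy', one_mul]
    · have a1 := h3 _ (hKm y hy) ζ hζ1
      rw [hG0 y hy] at a1
      have a2 := hζ2 C3 (by rw [hC]; linarith)
      have a3 := norm_sub_norm_le y (G lam ((κ, x₀, Z, y), ζ))
      rw [norm_sub_rev] at a3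
      have : S ((κ, x₀, Z, y), ζ) = 0 := hσ0 _ (by push Not at hy'; linarith)
      simp only [Θ, this, zero_mul, mul_zero]
  have hΘ0 : ∀ ζ : ℂ, ∀ y : E, 2 ≤ ‖y‖ → Θ (ζ, y) = 0 := fun ζ y hy => by
    simp only [Θ, cut_zero hy, zero_mul]
  have hΘ3 : ∀ ζ : ℂ, ‖ζ‖ < 1 / (4 * C) → ∀ y : E, ‖y‖ ≤ 2 →
      |Θ (ζ, y) - σ y ^ 2 - σ y * k y ζ| ≤ C * ‖ζ‖ ^ 2 := by
    intro ζ hζ y hy
    have a1 := h7 _ (hKm y hy) ζ (hsmall ζ hζ).1
    rw [dz_mul hS hT] at a1
    have a2 : S ((κ, x₀, Z, y), 0) = σ y := by simp only [S, hG0 y hy]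
    have a3 : T ((κ, x₀, Z, y), 0) = σ y := by simp only [T, hG0 y hy, hJ0 y hy, mul_one]
    rw [a2, a3, ← hΘ2 ζ hζ y hy, Real.norm_eq_abs] at a1
    have a4 : σ y * k y ζ =
        σ y * dz T ((κ, x₀, Z, y), 0) ζ + σ y * dz S ((κ, x₀, Z, y), 0) ζ := by
      simp only [k, add_apply, mul_add]
    rw [a4, sq]
    refine a1.trans ?_
    gcongr; rw [hC]; linarith
  have hΘ4 : ∀ ζ : ℂ, ‖ζ‖ < 1 / (4 * C) → ∀ h : E → ℝ,
      moll σ κ h (lam (x₀, Z, ζ)) = ∫ y, h (lam (x₀ - κ • y, Z, ζ)) * Θ (ζ, y) := by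
    intro ζ hζ h
    obtain ⟨hζ1, hζ2⟩ := hsmall ζ hζ
    have hGe : ∀ y : E, G lam ((κ, x₀, Z, y), ζ) =
        κ⁻¹ • (lam (x₀, Z, ζ) - lam (x₀ - κ • y, Z, ζ)) := fun y => by
      rw [← smul_G hl, inv_smul_smul₀ hκ.ne']
    have hd : ∀ y ∈ closedBall (0 : E) 2, HasFDerivAt (fun y => G lam ((κ, x₀, Z, y), ζ))
        (dx lam ((x₀ - κ • y, Z), ζ)) y := by
      intro y _
      have b1 : HasFDerivAt (fun y : E => x₀ - κ • y) (-(κ • ContinuousLinearMap.id ℝ E)) y :=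
        ((hasFDerivAt_id y).const_smul κ).const_sub x₀
      have b2 := (((hasFDerivAt_dx hl (x₀ - κ • y) Z ζ).comp y b1).const_sub
        (lam (x₀, Z, ζ))).const_smul κ⁻¹
      rw [funext hGe]
      refine HasFDerivAt.congr_fderiv b2 ?_
      ext1 v
      simp [smul_smul, inv_mul_cancel₀ hκ.ne']
    have hb : ∀ y ∈ closedBall (0 : E) 2,
        ‖dx lam ((x₀ - κ • y, Z), ζ) - ContinuousLinearMap.id ℝ E‖ ≤ 1 / 4 := by
      intro y hy
      have hy' : ‖y‖ ≤ 2 := by simpa using hy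
      have a1 := h2 (x₀ - κ • y, Z)
        ⟨ball_subset_closedBall (hmem y hy'), ball_subset_closedBall hZ⟩ ζ hζ1
      rw [hdx0 _ (hmem y hy')] at a1
      exact a1.trans (hζ2 C2 (by rw [hC]; linarith))
    have h0 : G lam ((κ, x₀, Z, 0), ζ) = 0 := by rw [hGe]; simp
    have := cov hd hb h0 (u := fun y => σ y ^ 2 * h (lam (x₀, Z, ζ) - κ • y))
      (fun y hy => by simp [hσ0 y hy])
    rw [moll, this, ← setIntegral_eq_integral_of_forall_compl_eq_zero (s := closedBall 0 2)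
      (f := fun y => h (lam (x₀ - κ • y, Z, ζ)) * Θ (ζ, y))]
    · refine setIntegral_congr_fun measurableSet_closedBall fun y hy => ?_
      have hy' : ‖y‖ ≤ 2 := by simpa using hy
      have a1 := h4 _ (hKm y hy') ζ hζ1
      rw [hJ0 y hy', Real.norm_eq_abs] at a1
      have a2 := hζ2 C4 (by rw [hC]; linarith)
      have a3 : 0 ≤ Jd lam ((κ, x₀, Z, y), ζ) := by linarith [(abs_le.1 a1).1]
      have a4 : |(dx lam ((x₀ - κ • y, Z), ζ)).det| = Jd lam ((κ, x₀, Z, y), ζ) := abs_of_nonneg a3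
      rw [a4, hΘ2 ζ hζ y hy', smul_G hl, sub_sub_cancel]
      simp only [S, T]
      ring
    · intro y hy
      rw [hΘ0 ζ y (hout y hy), mul_zero]
  refine ⟨Θ, k, hΘ, hk, fun y hy => ?_, fun ζ hζ => ⟨hΘ0 ζ, hΘ3 ζ hζ, ?_, fun h _ => hΘ4 ζ hζ h⟩⟩
  · refine (norm_add_le _ _).trans ?_
    linarith [h5 _ (hKm y hy), h6 _ (hKm y hy)]
  · refine lin_zero (B := C * ‖ζ‖ ^ 2 * volume.real (closedBall (0 : E) 2)) fun t ht ht1 => ?_
    have hζt : ‖t • ζ‖ < 1 / (4 * C) := by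
      rw [norm_smul, Real.norm_eq_abs, abs_of_pos ht]
      exact (mul_le_of_le_one_left (norm_nonneg _) ht1).trans_lt hζ
    have hcs : ∀ u : E → ℝ, Continuous u → (∀ y, 2 ≤ ‖y‖ → u y = 0) → Integrable u := by
      intro u hu hu0
      exact hu.integrable_of_hasCompactSupport (HasCompactSupport.intro
        (isCompact_closedBall (0 : E) 2) fun y hy => hu0 y (hout y hy))
    have i1 : Integrable fun y => Θ (t • ζ, y) := hcs _ (hΘ.comp (by fun_prop)) (hΘ0 _)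
    have i2 : Integrable fun y => σ y ^ 2 := hcs _ (hσ.continuous.pow 2)
      fun y hy => by simp [hσ0 y (by linarith)]
    have i3 : Integrable fun y => σ y * k y (t • ζ) :=
      hcs _ (hσ.continuous.mul (hk.clm_apply continuous_const))
        fun y hy => by simp [hσ0 y (by linarith)]
    have e1 : ∫ y, Θ (t • ζ, y) = 1 := by
      have := hΘ4 _ hζt fun _ => 1
      simp only [moll, mul_one, one_mul] at this
      rw [← this, hσ1]
    have e2 : ∫ y, σ y * k y (t • ζ) = t * ∫ y, σ y * k y ζ := by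
      rw [← integral_const_mul]
      refine integral_congr_ae (Eventually.of_forall fun y => ?_)
      simp only [map_smul, smul_eq_mul]
      ring
    have e3 : ∫ y, (Θ (t • ζ, y) - σ y ^ 2 - σ y * k y (t • ζ)) = -(t * ∫ y, σ y * k y ζ) := by
      rw [integral_sub (f := fun y => Θ (t • ζ, y) - σ y ^ 2) (i1.sub i2) i3, integral_sub i1 i2,
        e1, hσ1, e2]
      ring
    rw [← abs_neg, ← e3, ← setIntegral_eq_integral_of_forall_compl_eq_zero (s := closedBall 0 2)]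
    · have := norm_setIntegral_le_of_norm_le_const (μ := volume) (s := closedBall (0 : E) 2)
        (f := fun y => Θ (t • ζ, y) - σ y ^ 2 - σ y * k y (t • ζ)) (C := C * ‖t • ζ‖ ^ 2)
        measure_closedBall_lt_top fun y hy => hΘ3 _ hζt y (by simpa using hy)
      refine this.trans (le_of_eq ?_)
      rw [norm_smul, Real.norm_eq_abs, abs_of_pos ht]
      ring
    · intro y hy
      have hy' : 2 ≤ ‖y‖ := hout y hy
      simp [hΘ0 _ y hy', hσ0 y (by linarith)]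

end Pool.Agent.MP_13e7a1_an.H33
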